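import Pool.Agent.H27.CAL.Stmts2

open scoped BigOperators ENNReal Topology
open Filter

namespace CAL

section
variable {𝕜 : Type*} [RCLike 𝕜] {A : Type*} [PartialOrder A] {Y : Type*} [NormedAddCommGroup Y]
  [NormedSpace 𝕜 Y]

theorem bldf_T (τ : TreeLev A) (n : ℕ) : ∃ T : Finset A, ∀ a, a ∈ T ↔ τ.lev a < n := by
  have h : {a | τ.lev a < n}.Finite := (τ.fin n).subset (fun a ha => show τ.lev a ≤ n from le_of_lt ha)
  exact ⟨h.toFinset, fun a => by simp⟩

theorem cal_bldf (τ : TreeLev A) (net : ℕ → Finset ℕ → Finset A → Finset (Fn 𝕜 A Y)) :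
    BLDFStmt τ net := by
  classical
  intro hnet Ch F w
  refine ⟨fun n N l => ?_, fun n => ?_⟩
  · obtain ⟨T, hT⟩ := bldf_T τ n
    let f : ℕ × Option ℕ × Fn 𝕜 A Y × Finset ℕ × ℕ → Rc 𝕜 A Y := fun q =>
      ⟨n, q.1, q.2.1, q.2.2.1, q.2.2.2.1, q.2.2.2.2⟩
    let B : Set (Fn 𝕜 A Y) := (net n (Finset.range N) T : Set (Fn 𝕜 A Y)) ∪
      (fun θ => (Finsupp.single θ 1, 0)) '' (Set.Iio N)
    let P : Set (Option ℕ) := {none} ∪ some '' (Set.Iio N)
    let L : Set (Finset ℕ) := {{n}} ∪ (fun ξ => insert n (l ξ).Lv) '' (Set.Iio N)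
    have hB : B.Finite := (Finset.finite_toSet _).union ((Set.finite_Iio N).image _)
    have hP : P.Finite := (Set.finite_singleton _).union ((Set.finite_Iio N).image _)
    have hL : L.Finite := (Set.finite_singleton _).union ((Set.finite_Iio N).image _)
    have hfin : ((Set.Iic n) ×ˢ P ×ˢ B ×ˢ L ×ˢ (Set.Iic N) : Set _).Finite :=
      (Set.finite_Iic n).prod (hP.prod (hB.prod (hL.prod (Set.finite_Iic N))))
    refine (hfin.image f).subset ?_
    rintro ρ hρ
    have hv : Valid τ F w net n N l ρ := hρ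
    refine ⟨(ρ.wt, ρ.pred, ρ.b, ρ.Lv, ρ.th), ?_, ?_⟩
    · simp only [Set.mem_prod, Set.mem_Iic]
      refine ⟨hv.wt, ?_, ?_, ?_, ?_⟩
      · rcases hp : ρ.pred with _ | ξ
        · exact Or.inl rfl
        · exact Or.inr ⟨ξ, (hv.pred ξ hp).1, rfl⟩
      · rcases hv.cases with ⟨-, -, T', hT', hb⟩ | ⟨-, hth, hb, -⟩
        · left
          have : T' = T := by
            ext a
            rw [hT', hT]
          rw [this] at hb
          exact hb
        · exact Or.inr ⟨ρ.th, hth, hb.symm⟩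
      · rcases hp : ρ.pred with _ | ξ
        · exact Or.inl (hv.lv0 hp)
        · exact Or.inr ⟨ξ, (hv.pred ξ hp).1, (hv.lv1 ξ hp).symm⟩
      · rcases hv.cases with ⟨-, hth, -⟩ | ⟨-, hth, -⟩
        · omega
        · exact hth.le
    · have h1 := hv.lev
      show (⟨n, ρ.wt, ρ.pred, ρ.b, ρ.Lv, ρ.th⟩ : Rc 𝕜 A Y) = ρ
      rw [← h1]
  · obtain ⟨j, hj⟩ := w.inf1.nonempty
    obtain ⟨n0, hn0⟩ := hnet.2 (0 : Fn 𝕜 A Y) (by unfold nrm; simp) 1 one_pos
    refine ⟨n + n0 + j + 1, by omega, fun N l => ?_⟩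
    obtain ⟨T, hT⟩ := bldf_T τ (n + n0 + j + 1)
    obtain ⟨b, hb, -⟩ := hn0 (n + n0 + j + 1) (by omega) (Finset.range N) T (by simp) (by simp)
    have hfam : F.Fam j {n + n0 + j + 1} := by
      rcases F.ext j ∅ with ⟨l', hl'⟩ | h
      · have := hl'.2.2.1
        simp at this
      · have := h (n + n0 + j + 1) (by simp)
        simpa using this
    refine ⟨⟨n + n0 + j + 1, j, none, b, {n + n0 + j + 1}, 0⟩, ?_⟩
    constructor
    · rfl
    · omega
    · show j ≤ _
      omega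
    · intro ξ h
      simp at h
    · intro _
      rfl
    · intro ξ h
      simp at h
    · exact hfam
    · left
      exact ⟨Or.inl hj, rfl, T, hT, hb⟩

end

end CAL
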