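import Pool.Agent.H27.CAL.Stmts2

open scoped BigOperators ENNReal Topology
open Filter

namespace CAL

section
variable {𝕜 : Type*} [RCLike 𝕜] {A : Type*} [PartialOrder A] {Y : Type*} [NormedAddCommGroup Y]
  [NormedSpace 𝕜 Y] {τ : TreeLev A}

/-- continuation of a finite strictly increasing sequence -/
theorem cb_ext (n : ℕ) (hn : 0 < n) (a : ℕ → ℕ) (h : ∀ r, r + 1 < n → a r < a (r + 1)) :
    ∃ b : ℕ → ℕ, StrictMono b ∧ ∀ r < n, b r = a r := by
  refine ⟨fun r => if r < n then a r else a (n - 1) + (r - (n - 1)), ?_, fun r hr => if_pos hr⟩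
  apply strictMono_nat_of_lt_succ
  intro r
  by_cases h1 : r + 1 < n
  · rw [if_pos h1, if_pos (by omega : r < n)]
    exact h r h1
  · rw [if_neg h1]
    by_cases h2 : r < n
    · rw [if_pos h2]
      have : r = n - 1 := by omega
      rw [this]
      omega
    · rw [if_neg h2]
      omega

theorem cal_cb (D : Dat 𝕜 Y τ) (hstep : STEPStmt D) (hrun : RUNStmt.{0}) (_htail : TAILStmt D)
    (hanc : ANCStmt D) : CBStmt D := by
  classical
  intro Ch F w R j hj z z' f s t hf hfs hs hz hz' e he K0 p0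
  obtain ⟨hanc1, hanc2, hanc3, -⟩ := hanc
  have he4 : 0 < e / 4 := by positivity
  obtain ⟨n, a, l, hn, hA, hInv, hR, hpos, -, hgood⟩ := hrun F j (ℕ × ℕ) (fun a => D.Lv a.2)
    (fun a => D.lev a.2)
    (fun a => K0 ≤ a.1 ∧ p0 ≤ s a.1)
    (fun a => D.wt a.2 = j ∧ t a.1 ≤ D.lev a.2 ∧ ∀ u ∈ ({z a.1, z' a.1} : Set D.X), ∀ γ',
      D.Anc a.2 γ' → ‖D.co γ' u - 2⁻¹ * mi 𝕜 j * f a.1 u‖ ≤ e)
    (fun a a' => a.1 < a'.1 ∧ D.lev a.2 ≤ s a'.1 ∧ D.Anc a.2 a'.2)
    (by
      intro hfam
      obtain ⟨κ, hκ⟩ := ((tendsto_atTop.1 hs p0).and (eventually_ge_atTop K0)).exists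
      obtain ⟨N, hN⟩ := hstep F w R j hj (z κ) (z' κ) (f κ) (s κ) (hf κ) (hfs κ) (e / 4) he4 none
        (by simp)
      obtain ⟨γ, hγ1, hγ2, hγ3, hγ4⟩ := hN (max N (t κ)) (le_max_left _ _) (fun _ => hfam _)
        (by simp)
      refine ⟨(κ, γ), ⟨hκ.2, hκ.1⟩, ⟨hγ2, ?_, ?_⟩, ?_⟩
      · show t κ ≤ D.lev γ
        rw [hγ1]
        exact le_max_right _ _
      · intro u hu γ' hγ'
        obtain ⟨h1, h2⟩ := hγ4 u hu
        have h3 := h2 γ' hγ'
        simp only [Option.elim_none, sub_zero] at h1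
        have h4 : D.co γ' u - 2⁻¹ * mi 𝕜 j * f κ u =
          (D.co γ u - 2⁻¹ * mi 𝕜 j * f κ u) + (D.co γ' u - D.co γ u) := by ring
        rw [h4]
        refine (norm_add_le _ _).trans ?_
        linarith
      · exact D.Lv_none γ hγ3)
    (by
      rintro ⟨κ, γ⟩ ⟨hw, -, -⟩ hfam
      simp only at hw hfam ⊢
      have hz1 : ∀ᶠ k in atTop, ‖D.co γ (z k)‖ ≤ e / 4 := by
        have := (hz γ).norm
        rw [norm_zero] at this
        exact this.eventually (eventually_le_nhds he4)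
      have hz2 : ∀ᶠ k in atTop, ‖D.co γ (z' k)‖ ≤ e / 4 := by
        have := (hz' γ).norm
        rw [norm_zero] at this
        exact this.eventually (eventually_le_nhds he4)
      obtain ⟨κ', ⟨⟨hk1, hk2⟩, hk3⟩, hk4⟩ := (((tendsto_atTop.1 hs (D.lev γ)).and
        (eventually_gt_atTop κ)).and hz1 |>.and hz2).exists
      obtain ⟨N, hN⟩ := hstep F w R j hj (z κ') (z' κ') (f κ') (s κ') (hf κ') (hfs κ') (e / 4) he4
        (some γ) (by
          intro ζ hζ
          simp only [Option.some.injEq] at hζ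
          rw [← hζ]
          exact ⟨hw, hk1⟩)
      have hLv : ∀ h ∈ D.Lv γ, h ≤ D.lev γ := by
        intro h hh
        obtain ⟨ξ, hξ1, hξ2⟩ := hanc2 γ h hh
        rw [← hξ2]
        exact (hanc1 ξ γ hξ1).1
      obtain ⟨γ', hγ1, hγ2, hγ3, hγ4⟩ := hN (max (max N (t κ')) (D.lev γ + 1))
        ((le_max_left _ _).trans (le_max_left _ _)) (by simp) (by
          intro ζ hζ
          simp only [Option.some.injEq] at hζ
          rw [← hζ]
          apply hfam
          intro h hh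
          have := hLv h hh
          have := le_max_right (max N (t κ')) (D.lev γ + 1)
          omega)
      refine ⟨(κ', γ'), ⟨hγ2, ?_, ?_⟩, ⟨hk2, hk1, ?_⟩, ?_, ?_⟩
      · show t κ' ≤ D.lev γ'
        rw [hγ1]
        exact (le_max_right _ _).trans (le_max_left _ _)
      · intro u hu γ'' hγ''
        obtain ⟨h1, h2⟩ := hγ4 u hu
        have h3 := h2 γ'' hγ''
        simp only [Option.elim_some] at h1
        have h5 : ‖D.co γ u‖ ≤ e / 4 := by
          simp only [Set.mem_insert_iff, Set.mem_singleton_iff] at hu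
          rcases hu with rfl | rfl
          · exact hk3
          · exact hk4
        have h4 : D.co γ'' u - 2⁻¹ * mi 𝕜 j * f κ' u =
          (D.co γ' u - D.co γ u - 2⁻¹ * mi 𝕜 j * f κ' u) + D.co γ u + (D.co γ'' u - D.co γ' u) := by
          ring
        show ‖D.co γ'' u - 2⁻¹ * mi 𝕜 j * f κ' u‖ ≤ e
        rw [h4]
        refine (norm_add_le _ _).trans ?_
        have := norm_add_le (D.co γ' u - D.co γ u - 2⁻¹ * mi 𝕜 j * f κ' u) (D.co γ u)
        linarith
      · exact Dat.Anc.step hγ3 (Dat.Anc.refl γ)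
      · intro h hh
        have := hLv h hh
        show h < D.lev γ'
        rw [hγ1]
        have := le_max_right (max N (t κ')) (D.lev γ + 1)
        omega
      · exact D.Lv_some γ' γ hγ3)
  obtain ⟨κ, hκ, hκ'⟩ := cb_ext n hn (fun r => (a r).1) (fun r hr => (hR r hr).1)
  obtain ⟨p, hp, hp'⟩ := cb_ext n hn (fun r => D.lev (a r).2) hpos
  have hAnc : ∀ r, r < n → D.Anc (a r).2 (a (n - 1)).2 := by
    intro r hr
    have : ∀ m, r + m < n → D.Anc (a r).2 (a (r + m)).2 := by
      intro m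
      induction m with
      | zero => intro _; exact Dat.Anc.refl _
      | succ m ih =>
        intro h
        exact hanc3 _ _ _ (ih (by omega)) (hR (r + m) (by omega)).2.2
    have h1 := this (n - 1 - r) (by omega)
    rwa [show r + (n - 1 - r) = n - 1 by omega] at h1
  refine ⟨n, κ, p, (a (n - 1)).2, l, hκ, hp, ?_, ?_, ?_, ?_, ?_, ?_, ?_, ?_⟩
  · rw [hκ' 0 hn]; exact hA.1
  · rw [hκ' 0 hn]; exact hA.2
  · intro r hr
    rw [hκ' r hr, hp' r hr]
    exact (hInv r hr).2.1
  · intro r hr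
    rw [hκ' (r + 1) hr, hp' r (by omega)]
    exact (hR r hr).2.1
  · have : (Finset.range n).image p = (Finset.range n).image (fun i => D.lev (a i).2) := by
      apply Finset.image_congr
      intro r hr
      simp only [Finset.coe_range, Set.mem_Iio] at hr
      exact hp' r hr
    rw [this]
    exact hgood
  · exact (hInv (n - 1) (by omega)).1
  · intro r hr
    rw [hp' r hr]
    exact (hanc1 _ _ (hAnc r hr)).1
  · intro r hr
    rw [hκ' r hr]
    exact ⟨(hInv r hr).2.2 _ (by simp) _ (hAnc r hr), (hInv r hr).2.2 _ (by simp) _ (hAnc r hr)⟩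

end

end CAL
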