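import Pool.Agent.H27.CAL.Stmts2

open scoped BigOperators ENNReal Topology
open Filter

namespace CAL

section
variable {𝕜 : Type*} [RCLike 𝕜] {A : Type*} [PartialOrder A] {Y : Type*} [NormedAddCommGroup Y]
  [NormedSpace 𝕜 Y] {τ : TreeLev A}

theorem dep_big {J : Finset ℕ} (hJ : J.Nonempty) (l v : ℕ → ℝ) (C c : ℝ) (hl : ∀ k ∈ J, 0 ≤ l k)
    (hC : 0 ≤ C) (hc : 0 ≤ c) (h1 : ∀ k ∈ J, v k ≤ C) (r0 : ℕ) (h2 : ∀ k ∈ J, k ≠ r0 → v k ≤ c) :
    ∃ k0 ∈ J, ∑ k ∈ J, l k * v k ≤ C * l k0 + c * ∑ k ∈ J, l k := by
  classical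
  by_cases hr : r0 ∈ J
  · refine ⟨r0, hr, ?_⟩
    rw [← Finset.add_sum_erase J _ hr, Finset.mul_sum]
    apply add_le_add
    · rw [mul_comm]
      exact mul_le_mul_of_nonneg_right (h1 r0 hr) (hl r0 hr)
    · calc ∑ k ∈ J.erase r0, l k * v k ≤ ∑ k ∈ J.erase r0, c * l k := by
            apply Finset.sum_le_sum
            intro k hk
            rw [Finset.mem_erase] at hk
            rw [mul_comm]
            exact mul_le_mul_of_nonneg_right (h2 k hk.2 hk.1) (hl k hk.2)
        _ ≤ ∑ k ∈ J, c * l k := by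
            apply Finset.sum_le_sum_of_subset_of_nonneg (Finset.erase_subset _ _)
            intro k hk _
            exact mul_nonneg hc (hl k hk)
  · obtain ⟨k0, hk0⟩ := hJ
    refine ⟨k0, hk0, ?_⟩
    rw [Finset.mul_sum]
    have : ∑ k ∈ J, l k * v k ≤ ∑ k ∈ J, c * l k := by
      apply Finset.sum_le_sum
      intro k hk
      rw [mul_comm]
      exact mul_le_mul_of_nonneg_right (h2 k hk (fun h => hr (h ▸ hk))) (hl k hk)
    have h3 := mul_nonneg hC (hl k0 hk0)
    linarith

theorem cal_dep (D : Dat 𝕜 Y τ) (hdepb : DEPBStmt D) (havgn : AVGNStmt D) (hran : RANStmt D)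
    (hlevw : LEVWStmt D) : DEPStmt D := by
  classical
  intro Ch F w R C j0 n y t η ξ l hC hj0 hdep hgood
  obtain ⟨hb1, hb2, hb3⟩ := hdepb F w R C j0 n y t η ξ hC hj0 hdep
  obtain ⟨-, -, hmono, -, hPX, -⟩ := hran
  have hC0 : 0 ≤ C := by linarith
  -- levels of ξ
  have hstep : ∀ r, r + 1 < n → D.lev (ξ r) < D.lev (ξ (r + 1)) := fun r hr =>
    D.pred_lev _ _ (hdep.some r hr)
  have hlt : ∀ r r', r < r' → r' < n → D.lev (ξ r) < D.lev (ξ r') := by
    intro r r' hrr'
    induction r', hrr' using Nat.le_induction with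
    | base => intro h; exact hstep r h
    | succ k hk ih => intro h; exact (ih (by omega)).trans (hstep k h)
  have hle : ∀ r r', r ≤ r' → r' < n → D.lev (ξ r) ≤ D.lev (ξ r') := by
    intro r r' h h'
    rcases eq_or_lt_of_le h with h | h
    · rw [h]
    · exact (hlt r r' h h').le
  have hinj : Set.InjOn (fun r => D.lev (ξ r)) (Finset.range n : Set ℕ) := by
    intro r hr r' hr' h
    simp only [Finset.coe_range, Set.mem_Iio] at hr hr'
    simp only at h
    rcases lt_trichotomy r r' with h1 | h1 | h1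
    · have := hlt r r' h1 hr'; omega
    · exact h1
    · have := hlt r' r h1 hr; omega
  have hwstep : ∀ r, r + 1 < n → D.wt (η r) < D.wt (η (r + 1)) := by
    intro r hr
    have h1 := hb2 r hr
    have h2 := hdep.lv r (by omega)
    have h3 := D.wt_le (η r)
    omega
  have hwle : ∀ r r', r ≤ r' → r' < n → D.wt (η r) ≤ D.wt (η r') := by
    intro r r' hrr'
    induction r', hrr' using Nat.le_induction with
    | base => intro h; exact le_rfl
    | succ k hk ih => intro h; exact (ih (by omega)).trans (hwstep k h).le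
  obtain ⟨hg1, hg2, hg3, hg4⟩ := hgood
  have hsum : ∑ r ∈ Finset.range n, l (D.lev (ξ r)) = 1 := by
    rw [← hg3, Finset.sum_image (fun a ha b hb h => hinj ha hb h)]
  set μ : ℝ := ((mm j0)⁻¹) ^ 2 with hμ
  have hμ0 : 0 ≤ μ := by positivity
  have hsys : D.Sys j0 C μ (Finset.range n) y (fun r => if r = 0 then 0 else D.lev (ξ (r - 1)))
      (fun r => D.lev (ξ r)) (fun r => l (D.lev (ξ r))) := by
    refine ⟨hC0, hμ0, ?_, ?_, ?_, ?_, ?_, ?_, ?_⟩
    · intro k hk
      rw [Finset.mem_range] at hk
      have h1 := (hdep.ex k hk).ran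
      have h2 := (hdep.ex k hk).lt
      have h3 := hdep.lv k hk
      exact hmono _ _ _ _ _ le_rfl (by omega) h1
    · intro k hk
      rw [Finset.mem_range] at hk
      have h1 := (hdep.ex k hk).pt
      have h2 := (hdep.ex k hk).lt
      have h3 := hdep.lv k hk
      omega
    · intro k hk k' hk' hkk'
      rw [Finset.mem_range] at hk hk'
      rw [if_neg (by omega)]
      exact hle k (k' - 1) (by omega) (by omega)
    · intro k hk
      rw [Finset.mem_range] at hk
      exact (hdep.ex k hk).nm
    · intro k _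
      exact hg1 _
    · intro k hk γ hγ
      rw [Finset.mem_range] at hk
      exact (hdep.ex k hk).sm γ (hγ.trans (hb1 k hk))
    · intro γ hγ J hJ hJn
      have hv1 : ∀ k ∈ J, ‖D.co γ (y k)‖ ≤ C := by
        intro k hk
        have hk' := Finset.mem_range.1 (hJ hk)
        exact (D.norm_co_le γ _).trans (hdep.ex k hk').nm
      have hr : ∃ r0, ∀ k ∈ J, k ≠ r0 → ‖D.co γ (y k)‖ ≤ C * μ := by
        rcases eq_or_lt_of_le hγ with h | h
        · obtain ⟨r0, hr0⟩ := hb3 γ h.symm
          exact ⟨r0, fun k hk hk0 => hr0 k (Finset.mem_range.1 (hJ hk)) hk0⟩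
        · have hmu : (mm (D.wt γ))⁻¹ ≤ μ := mm_inv_sq h
          have key : ∃ r0, ∀ k < n, k ≠ r0 → ‖D.co γ (y k)‖ ≤ C * (mm (D.wt γ))⁻¹ := by
            by_cases hex : ∃ r < n, D.wt (η r) ≤ D.wt γ
            · obtain ⟨r1, hr1, hr1'⟩ := hex
              let S := (Finset.range n).filter (fun r => D.wt (η r) ≤ D.wt γ)
              have hS : S.Nonempty := ⟨r1, by simp [S, hr1, hr1']⟩
              refine ⟨S.max' hS, fun k hk hk0 => ?_⟩
              have hmem := S.max'_mem hS
              simp only [S, Finset.mem_filter, Finset.mem_range] at hmem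
              rcases lt_or_gt_of_ne hk0 with h1 | h1
              · have h2 : k + 1 < n := by
                  have := hmem.1
                  simp only [S] at h1
                  omega
                have h3 := hb2 k h2
                have h4 : D.wt (η (k + 1)) ≤ D.wt γ :=
                  (hwle (k + 1) _ h1 hmem.1).trans hmem.2
                have h5 := (hdep.ex k hk).lt
                have h6 := hdep.lv k hk
                have h7 := hlevw (t k) (y k) γ (hdep.ex k hk).ran.2 (by omega)
                have h8 := (hdep.ex k hk).nm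
                have h9 := mm_inv_pos (D.wt γ)
                calc ‖D.co γ (y k)‖ ≤ (mm (D.wt γ))⁻¹ * ‖y k‖ := h7
                  _ ≤ (mm (D.wt γ))⁻¹ * C := mul_le_mul_of_nonneg_left h8 h9.le
                  _ = C * (mm (D.wt γ))⁻¹ := mul_comm _ _
              · apply (hdep.ex k hk).sm γ
                by_contra hcon
                have : k ∈ S := by
                  simp only [S, Finset.mem_filter, Finset.mem_range]
                  exact ⟨hk, not_lt.1 hcon⟩
                have := S.le_max' k this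
                omega
            · refine ⟨0, fun k hk _ => (hdep.ex k hk).sm γ ?_⟩
              by_contra hcon
              exact hex ⟨k, hk, not_lt.1 hcon⟩
          obtain ⟨r0, hr0⟩ := key
          refine ⟨r0, fun k hk hk0 => (hr0 k (Finset.mem_range.1 (hJ hk)) hk0).trans ?_⟩
          exact mul_le_mul_of_nonneg_left hmu hC0
      obtain ⟨r0, hr0⟩ := hr
      exact dep_big hJn (fun r => l (D.lev (ξ r))) (fun k => ‖D.co γ (y k)‖) C (C * μ)
        (fun k _ => hg1 _) hC0 (by positivity) hv1 r0 hr0
  have havg := (havgn F w R j0 C μ (Finset.range n) y _ _ _ (epsj j0) hsys hsum.le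
    (by unfold epsj; have := mm_inv_pos j0; positivity) (by
      intro g hg
      have h1 := hg4 g hg
      rwa [Finset.sum_image (fun a ha b hb h => hinj ha hb h)] at h1)).1
  refine ⟨hsum, havg.trans ?_⟩
  have h1 := mm_inv_pos j0
  have h2 := mm_inv_le j0
  have h3 : epsj j0 ≤ μ := by
    unfold epsj
    rw [hμ]
    exact pow_le_pow_of_le_one h1.le (by linarith) (by norm_num)
  have h4 : C * (epsj j0 + μ) ≤ C * (3 * μ) := mul_le_mul_of_nonneg_left (by linarith) hC0
  linarith

end

end CAL
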