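import Pool.Agent.H27.CAL.Stmts2

open scoped BigOperators ENNReal Topology
open Filter

namespace CAL

section
variable {𝕜 : Type*} [RCLike 𝕜] {A : Type*} [PartialOrder A] {Y : Type*} [NormedAddCommGroup Y]
  [NormedSpace 𝕜 Y] {τ : TreeLev A}

theorem cal_hsc [CompleteSpace Y] (D : Dat 𝕜 Y τ) (hoper : OPERStmt D) (hhpt : HPTStmt D)
    (hhfr : HFRStmt D D.X) : HSCStmt D := by
  intro hA Ch F w R T
  obtain ⟨c, hc⟩ := hoper F w R (hhpt hA F w R) T
  refine ⟨c, ?_⟩
  set S : D.X →L[𝕜] D.X := T - c • ContinuousLinearMap.id 𝕜 D.X with hS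
  have htend : Tendsto (fun n => S.comp (D.PX n)) atTop (𝓝 S) := by
    refine (tendsto_iff_norm_sub_tendsto_zero (E := D.X →L[𝕜] D.X)).2 ?_
    rw [Metric.tendsto_atTop]
    intro ε hε
    obtain ⟨N, hN⟩ := hc (ε / 2) (by positivity)
    refine ⟨N, fun n hn => ?_⟩
    rw [dist_eq_norm, sub_zero, norm_norm]
    have h1 : ‖S.comp (D.PX n) - S‖ ≤ ε / 2 := by
      apply ContinuousLinearMap.opNorm_le_bound _ (by positivity)
      intro x
      have h2 := hN n hn x
      have h3 : (S.comp (D.PX n) - S) x = -(T (x - D.PX n x) - c • (x - D.PX n x)) := by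
        simp only [hS, _root_.sub_apply, ContinuousLinearMap.comp_apply,
          _root_.smul_apply, ContinuousLinearMap.id_apply, map_sub, smul_sub]
        abel
      rw [h3, norm_neg]
      exact h2
    linarith
  exact isCompactOperator_of_tendsto htend (Eventually.of_forall fun n => hhfr hA n S)

end

end CAL
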