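import Pool.Agent.H27.CAL.Stmts2

open scoped BigOperators ENNReal Topology
open Filter

namespace CAL

section
variable {𝕜 : Type*} [RCLike 𝕜] {A : Type*} [PartialOrder A] {Y : Type*} [NormedAddCommGroup Y]
  [NormedSpace 𝕜 Y] {τ : TreeLev A}

theorem mainb_lt_mm (j : ℕ) : (j : ℝ) < mm j := by
  unfold mm
  have h1 : j < 2 ^ j := Nat.lt_two_pow_self
  have h2 : 2 ^ j < 4 ^ (2 ^ j) := Nat.lt_pow_self (by norm_num)
  exact_mod_cast h1.trans h2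

theorem cal_mainb (D : Dat 𝕜 Y τ) (hdcb : DCBStmt D) (hdep : DEPStmt D) : MAINBStmt D := by
  intro Ch F w R T C δ hC hδ hyp
  obtain ⟨j0, hj0, hbig⟩ := w.info.exists_gt ⌈6 * C * ‖T‖ / δ⌉₊
  have hm0 := mm_inv_pos j0
  have hmp := mm_pos j0
  obtain ⟨n, y, t, η, ξ, l, hn, hds, hg, hval⟩ := hdcb F w R T C δ hyp j0 hj0
    ((mm j0)⁻¹ * δ / 2) (by positivity)
  obtain ⟨hsum, hnorm⟩ := hdep F w R C j0 n y t η ξ l hC hj0 hds hg
  have hl := hg.1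
  set u : D.X := ∑ r ∈ Finset.range n, (l (D.lev (ξ r)) : 𝕜) • y r with hu
  have h1 : (mm j0)⁻¹ * δ / 2 ≤ RCLike.re (D.co (ξ (n - 1)) (T u)) := by
    rw [hu, map_sum, map_sum, map_sum]
    calc (mm j0)⁻¹ * δ / 2 = ∑ r ∈ Finset.range n, l (D.lev (ξ r)) * ((mm j0)⁻¹ * δ / 2) := by
          rw [← Finset.sum_mul, hsum, one_mul]
      _ ≤ _ := by
          apply Finset.sum_le_sum
          intro r hr
          rw [Finset.mem_range] at hr
          rw [map_smul, map_smul, smul_eq_mul, RCLike.re_ofReal_mul]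
          apply mul_le_mul_of_nonneg_left _ (hl _)
          have := hval r hr
          linarith
  have h2 : RCLike.re (D.co (ξ (n - 1)) (T u)) ≤ ‖T‖ * (3 * C * (mm j0)⁻¹ ^ 2) := by
    refine (RCLike.re_le_norm _).trans ((D.norm_co_le _ _).trans ?_)
    exact (T.le_opNorm u).trans (mul_le_mul_of_nonneg_left hnorm (norm_nonneg _))
  have h3 : mm j0 ≤ 6 * C * ‖T‖ / δ := by
    rw [le_div_iff₀ hδ]
    have h4 := h1.trans h2
    have h5 : (mm j0)⁻¹ * mm j0 = 1 := inv_mul_cancel₀ hmp.ne'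
    have h6 := mul_le_mul_of_nonneg_right h4 (by positivity : 0 ≤ 2 * mm j0 ^ 2)
    have h7 : (mm j0)⁻¹ * δ / 2 * (2 * mm j0 ^ 2) = mm j0 * δ := by
      field_simp
    have h8 : ‖T‖ * (3 * C * (mm j0)⁻¹ ^ 2) * (2 * mm j0 ^ 2) = 6 * C * ‖T‖ := by
      field_simp
      ring
    rw [h7, h8] at h6
    exact h6
  have h9 := mainb_lt_mm j0
  have h10 : 6 * C * ‖T‖ / δ ≤ (⌈6 * C * ‖T‖ / δ⌉₊ : ℝ) := Nat.le_ceil _
  have h11 : ((⌈6 * C * ‖T‖ / δ⌉₊ : ℕ) : ℝ) < (j0 : ℝ) := by exact_mod_cast hbig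
  linarith

end

end CAL
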